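import Pool.Agent.Lib_helper68.BitEvade

namespace Pool.Agent.Results.MP_e8bb91_co.NotWinnable

open Pool.Agent.ProbeGame

/-- It is not true that `G^{1/(μ(G)+1)}` is cop-winnable for every finite connected graph `G`.
Moreover, whenever `1 ≤ m` and `2 m + 3 ≤ C(μ - 2 - ⌈m/2⌉, 2)` (for instance `μ = 29` and
`m = 30`), there is a finite connected graph `G` of metric dimension `μ` such that `G^{1/m}` is
not cop-winnable. -/
theorem result :
    (¬ ∀ (V : Type) [Fintype V] (G : SimpleGraph V), G.Connected →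
        CopWinnable (fracPower G (metricDimension G + 1))) ∧
    (∀ μ m : ℕ, 1 ≤ m → 2 * m + 3 ≤ (μ - 2 - (m + 1) / 2).choose 2 →
      ∃ (V : Type) (_ : Fintype V) (G : SimpleGraph V),
        G.Connected ∧ metricDimension G = μ ∧ ¬ CopWinnable (fracPower G m)) := by
  have key : ∀ μ m : ℕ, 1 ≤ m → 2 * m + 3 ≤ (μ - 2 - (m + 1) / 2).choose 2 →
      ∃ (V : Type) (_ : Fintype V) (G : SimpleGraph V),
        G.Connected ∧ metricDimension G = μ ∧ ¬ CopWinnable (fracPower G m) := by
    intro μ m hm h
    refine ⟨(Fin μ → Bool) ⊕ Fin μ, inferInstance, bitGraph μ, bit_connected,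
      bit_metricDimension, not_copWinnable m hm ?_⟩
    have e : m - m / 2 = (m + 1) / 2 := by omega
    rw [e]
    exact h
  refine ⟨?_, key⟩
  intro hall
  obtain ⟨V, hV, G, hc, hd, hn⟩ := key 29 30 (by norm_num) (by decide)
  apply hn
  have := hall V G hc
  rwa [hd] at this

end Pool.Agent.Results.MP_e8bb91_co.NotWinnable
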