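import Pool.Agent.Lib_helper68.BitEvade
import Pool.Agent.ProbeSharp.Upper

/-!
# MP_e8bb91_co: the threshold of the probe game on `G^{1/m}` is asymptotically `2 μ(G)`
-/

set_option autoImplicit false

namespace Pool.Agent.Results.MP_e8bb91_co.SharpThreshold

open Pool.Agent.ProbeGame

/-- The cop wins on `G^{1/m}` for every finite connected graph `G` and all `m ≥ 2 μ(G) + 1`; for
every `μ` there is a finite connected graph `G` of metric dimension `μ` such that the robber wins on
`G^{1/m}` for all `m` from `1` to `2 μ - 6 √μ - 11`. -/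
theorem result :
    (∀ (V : Type) [Fintype V] (G : SimpleGraph V), G.Connected →
      ∀ m : ℕ, 2 * metricDimension G + 1 ≤ m → CopWinnable (fracPower G m)) ∧
    ∀ μ : ℕ, ∃ (V : Type) (_ : Fintype V) (G : SimpleGraph V),
      G.Connected ∧ metricDimension G = μ ∧
      ∀ m : ℕ, 1 ≤ m → m + 6 * Nat.sqrt μ + 11 ≤ 2 * μ → ¬ CopWinnable (fracPower G m) := by
  refine ⟨fun V _ G hG m hm => Sharp.copWinnable_of_metricDimension hG hm, fun μ =>
    ⟨(Fin μ → Bool) ⊕ Fin μ, inferInstance, bitGraph μ, bit_connected, bit_metricDimension,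
      fun m hm h => not_copWinnable m hm ?_⟩⟩
  obtain ⟨r, hr⟩ : ∃ r, r = Nat.sqrt μ := ⟨_, rfl⟩
  have h1 : μ < (r + 1) * (r + 1) := by
    rw [hr]
    exact Nat.lt_succ_sqrt μ
  rw [← hr] at h
  have h2 : 3 * (r + 1) ≤ μ - 2 - (m - m / 2) := by omega
  have h3 := Nat.choose_le_choose 2 h2
  refine le_trans ?_ h3
  rw [Nat.choose_two_right]
  have h4 : 2 * (2 * m + 3) ≤ 3 * (r + 1) * (3 * (r + 1) - 1) := by
    have h5 : 3 * (r + 1) - 1 = 3 * r + 2 := by omega
    rw [h5]
    nlinarith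
  omega

end Pool.Agent.Results.MP_e8bb91_co.SharpThreshold
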